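import Pool.Agent.Helper36.CV.StmtsW

/-!
# Module D6: the exact recursion of `Pol (t)`
-/

namespace Pool.Agent.Helper36.CV

noncomputable section

theorem d6_eps (k : ℤ) : (-1 : ℝ) ^ k.natAbs = (-1 : ℝ) ^ k := by
  obtain ⟨n, rfl | rfl⟩ := Int.eq_nat_or_neg k
  · simp
  · rw [Int.natAbs_neg, Int.natAbs_natCast, zpow_neg, zpow_natCast]
    rcases neg_one_pow_eq_or ℝ n with h | h <;> rw [h] <;> norm_num

theorem d6_add (a b : ℤ) : (-1 : ℝ) ^ (a + b).natAbs = (-1 : ℝ) ^ a.natAbs * (-1) ^ b.natAbs := by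
  rw [d6_eps, d6_eps, d6_eps, zpow_add₀ (by norm_num)]

theorem d6_sq (k : ℤ) : ((-1 : ℝ) ^ k.natAbs) ^ 2 = 1 := by
  rcases neg_one_pow_eq_or ℝ k.natAbs with h | h <;> rw [h] <;> norm_num

/-- The first two identities. -/
theorem d6_ids (hT1 : ST_T1) (l E : ℝ) (a b : ℤ) (n : ℕ) :
    tt l a b (n + 3) E + tt l a b n E =
      2 * (tt l a b (n + 1) E + tt l a b (n + 2) E - tt l a b (n + 1) E * tt l a b (n + 2) E) ∧
    tt l a b (n + 3) E * tt l a b n E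
      = (tt l a b (n + 1) E - tt l a b (n + 2) E) ^ 2 - l ^ 2 / 4 := by
  have hI := (hT1 l E n).1
  have hX : X l (n + 3) E = 2 * X l (n + 2) E * X l (n + 1) E - X l n E := rfl
  have e2 : (-1 : ℝ) ^ (pp a b (n + 2)).natAbs
      = (-1 : ℝ) ^ (pp a b (n + 1)).natAbs * (-1) ^ (pp a b n).natAbs := by
    have : pp a b (n + 2) = pp a b (n + 1) + pp a b n := rfl
    rw [this, d6_add]
  have e3 : (-1 : ℝ) ^ (pp a b (n + 3)).natAbs
      = (-1 : ℝ) ^ (pp a b (n + 2)).natAbs * (-1) ^ (pp a b (n + 1)).natAbs := by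
    have : pp a b (n + 3) = pp a b (n + 2) + pp a b (n + 1) := rfl
    rw [this, d6_add]
  have s1 := d6_sq (pp a b (n + 1))
  have s0 := d6_sq (pp a b n)
  simp only [tt]
  rw [hX, e3, e2]
  set u := (-1 : ℝ) ^ (pp a b (n + 1)).natAbs
  set v := (-1 : ℝ) ^ (pp a b n).natAbs
  set x := X l n E
  set y := X l (n + 1) E
  set z := X l (n + 2) E
  constructor
  · linear_combination (-v * (2 * z * y - x)+ 2 * v * y * z) * s1
  · linear_combination (v * x + v ^ 2 * (2 * z * y * x - x ^ 2 - z ^ 2) - y ^ 2) * s1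
      + (2 * z * y * x - x ^ 2 - z ^ 2) * s0 - hI

/-- The exact recursion in terms of the sum and the product of `t` at two levels. -/
theorem d6_exact (T t u v I : ℝ) (h1 : T + t = 2 * (u + v - u * v))
    (h2 : T * t = (u - v) ^ 2 - I) :
    Pol T - 2 * Pol v - 2 * Pol u + Pol t = I / 3 - 2 / 5 * (u * v) ^ 2
      - 4 / 5 * (u + v) ^ 2 * (u * v) + 16 / 15 * (u + v) * (u * v) ^ 2 - 16 / 45 * (u * v) ^ 3
      + 4 / 15 * (u + v - u * v) * I := by
  have e1 : Pol T + Pol t = (T + t) + ((T + t) ^ 2 - 2 * (T * t)) / 6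
      + 2 * ((T + t) ^ 3 - 3 * (T + t) * (T * t)) / 45 := by
    simp only [Pol]; ring
  have e2 : Pol T - 2 * Pol v - 2 * Pol u + Pol t = (Pol T + Pol t) - 2 * Pol v - 2 * Pol u := by
    ring
  rw [e2, e1, h1, h2]
  simp only [Pol]
  ring

theorem st_D6 (hT1 : ST_T1) : ST_D6 := by
  intro l E a b n
  obtain ⟨h1, h2⟩ := d6_ids hT1 l E a b n
  refine ⟨h1, h2, ?_⟩
  intro m hm hl hu hv
  have h3 := d6_exact _ _ _ _ (l ^ 2 / 4) h1 h2
  have e0 : ee l a b n E = Pol (tt l a b (n + 3) E) - 2 * Pol (tt l a b (n + 2) E)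
      - 2 * Pol (tt l a b (n + 1) E) + Pol (tt l a b n E) := rfl
  rw [e0, h3]
  set u := tt l a b (n + 1) E
  set v := tt l a b (n + 2) E
  have m0 : 0 ≤ m := (abs_nonneg u).trans hu
  set L := l ^ 2 with hL
  have hL0 : 0 ≤ L := sq_nonneg l
  have hp : |u * v| ≤ m ^ 2 := by
    rw [abs_mul, sq]
    exact mul_le_mul hu hv (abs_nonneg _) m0
  have hs : |u + v| ≤ 2 * m := (abs_add_le u v).trans (by linarith)
  set p := u * v
  set w := u + v
  have hp2 : p ^ 2 ≤ m ^ 4 := by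
    have : p ^ 2 = |p| ^ 2 := (sq_abs p).symm
    rw [this]
    calc |p| ^ 2 ≤ (m ^ 2) ^ 2 := pow_le_pow_left₀ (abs_nonneg _) hp 2
      _ = m ^ 4 := by ring
  have hw2 : w ^ 2 ≤ 4 * m ^ 2 := by
    have : w ^ 2 = |w| ^ 2 := (sq_abs w).symm
    rw [this]
    calc |w| ^ 2 ≤ (2 * m) ^ 2 := pow_le_pow_left₀ (abs_nonneg _) hs 2
      _ = 4 * m ^ 2 := by ring
  have t1 : |2 / 5 * p ^ 2| ≤ 2 / 5 * m ^ 4 := by
    rw [abs_of_nonneg (by positivity)]
    linarith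
  have t2 : |4 / 5 * w ^ 2 * p| ≤ 16 / 5 * m ^ 4 := by
    rw [abs_mul, abs_of_nonneg (by positivity : 0 ≤ 4 / 5 * w ^ 2)]
    calc 4 / 5 * w ^ 2 * |p| ≤ 4 / 5 * (4 * m ^ 2) * m ^ 2 := by
          apply mul_le_mul (by linarith) hp (abs_nonneg _) (by positivity)
      _ = 16 / 5 * m ^ 4 := by ring
  have t3 : |16 / 15 * w * p ^ 2| ≤ 32 / 150 * m ^ 4 := by
    rw [abs_mul, abs_mul, abs_of_nonneg (by norm_num : (0 : ℝ) ≤ 16 / 15),
      abs_of_nonneg (sq_nonneg p)]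
    calc 16 / 15 * |w| * p ^ 2 ≤ 16 / 15 * (2 * (1 / 10)) * m ^ 4 := by
          apply mul_le_mul _ hp2 (sq_nonneg _) (by positivity)
          linarith
      _ = 32 / 150 * m ^ 4 := by ring
  have t4 : |16 / 45 * p ^ 3| ≤ 16 / 4500 * m ^ 4 := by
    have : p ^ 3 = p * p ^ 2 := by ring
    rw [this, abs_mul, abs_of_nonneg (by norm_num : (0 : ℝ) ≤ 16 / 45), abs_mul,
      abs_of_nonneg (sq_nonneg p)]
    have h100 : |p| ≤ 1 / 100 := by nlinarith
    calc 16 / 45 * (|p| * p ^ 2) ≤ 16 / 45 * (1 / 100 * m ^ 4) := by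
          apply mul_le_mul_of_nonneg_left _ (by norm_num)
          exact mul_le_mul h100 hp2 (sq_nonneg _) (by norm_num)
      _ = 16 / 4500 * m ^ 4 := by ring
  have t5 : |4 / 15 * (w - p) * (L / 4)| ≤ m * L := by
    rw [abs_mul, abs_mul, abs_of_nonneg (by norm_num : (0 : ℝ) ≤ 4 / 15),
      abs_of_nonneg (by positivity : 0 ≤ L / 4)]
    have h5 : |w - p| ≤ 3 * m := by
      have := abs_sub w p
      nlinarith
    calc 4 / 15 * |w - p| * (L / 4) ≤ 4 / 15 * (3 * m) * (L / 4) := by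
          apply mul_le_mul_of_nonneg_right _ (by positivity)
          linarith
      _ = 1 / 5 * (m * L) := by ring
      _ ≤ m * L := by nlinarith [mul_nonneg m0 hL0]
  have m4 : 0 ≤ m ^ 4 := by positivity
  rw [abs_le] at t1 t2 t3 t4 t5 ⊢
  constructor <;> linarith [t1.1, t1.2, t2.1, t2.2, t3.1, t3.2, t4.1, t4.2, t5.1, t5.2]

end

end Pool.Agent.Helper36.CV
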